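import Pool.Agent.P8H96.SP.Stm
import Pool.Agent.H388SL.SparseB

/-!
# Project SP, package POW: one power whose conjugates have a large mean over many classes
-/

set_option autoImplicit false

open Finset Polynomial Module Pool.Agent.H388SL Pool.Agent.P8H96.SP

namespace Pool.Agent.P8H41.SP

variable {k M : Type} [Field k] [NumberField k] [Field M] [NumberField M] [Algebra k M]

/-- sum of the absolute logarithms of the conjugates of an algebraic integer -/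
lemma sum_abs_log_le {α : M} (hα : IsIntegral ℤ α) (h0 : α ≠ 0) :
    ∑ σ : M →ₐ[ℚ] ℂ, |Real.log ‖σ α‖| ≤ 2 * lam α := by
  have h1 : 0 ≤ ∑ σ : M →ₐ[ℚ] ℂ, Real.log ‖σ α‖ := by
    rw [← Real.log_prod]
    · exact Real.log_nonneg (one_le_prod_norm hα h0)
    · intro σ _
      rw [norm_ne_zero_iff]
      exact (map_ne_zero σ).mpr h0
  have h2 : ∀ σ : M →ₐ[ℚ] ℂ, |Real.log ‖σ α‖| = 2 * Real.log (max 1 ‖σ α‖) - Real.log ‖σ α‖ := by
    intro σ
    rcases le_total ‖σ α‖ 1 with h | h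
    · have := Real.log_nonpos (norm_nonneg _) h
      rw [max_eq_left h, abs_of_nonpos this, Real.log_one]; ring
    · have := Real.log_nonneg h
      rw [max_eq_right h, abs_of_nonneg this]; ring
  rw [Finset.sum_congr rfl (fun σ _ => h2 σ), Finset.sum_sub_distrib, ← Finset.mul_sum, lam]
  linarith

/-- products of powers of normalised conjugates -/
lemma uu_mul {α : M} (h0 : α ≠ 0) (τ : M →ₐ[ℚ] ℂ) {j l : ℕ} (h : l ≤ j) :
    uu α τ ^ j * starRingEnd ℂ (uu α τ ^ l) = uu α τ ^ (j - l) := by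
  have h1 : uu α τ ^ j = uu α τ ^ (j - l) * uu α τ ^ l := by
    rw [← pow_add, Nat.sub_add_cancel h]
  rw [h1, mul_assoc, Complex.mul_conj, Complex.normSq_eq_norm_sq, norm_pow, norm_uu h0 τ]
  simp

/-- comparison of one term with the reflected conjugate -/
lemma term_le {α : M} (h0 : α ≠ 0) (τ : M →ₐ[ℚ] ℂ) (m : ℕ) :
    ‖uu α τ ^ m - refl (τ (α ^ m))‖ ≤ min 2 (m * |Real.log ‖τ α‖|) := by
  have hz : τ (α ^ m) ≠ 0 := (map_ne_zero τ).mpr (pow_ne_zero _ h0)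
  have h1 := refl_sub_le hz
  have e1 : τ (α ^ m) / ‖τ (α ^ m)‖ = uu α τ ^ m := by
    rw [uu, map_pow, norm_pow, div_pow]
    push_cast
    rfl
  have e2 : |Real.log ‖τ (α ^ m)‖| = m * |Real.log ‖τ α‖| := by
    rw [map_pow, norm_pow, Real.log_pow, abs_mul, abs_of_nonneg (Nat.cast_nonneg m)]
  rw [e1, e2, norm_sub_rev] at h1
  refine le_min ?_ h1
  have h2 : ‖uu α τ ^ m‖ = 1 := by rw [norm_pow, norm_uu h0, one_pow]
  have h3 := norm_refl_le (τ (α ^ m))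
  calc ‖uu α τ ^ m - refl (τ (α ^ m))‖ ≤ ‖uu α τ ^ m‖ + ‖refl (τ (α ^ m))‖ := norm_sub_le _ _
    _ ≤ 2 := by linarith

/-- comparison of the sums over a class -/
lemma class_le {α : M} (h0 : α ≠ 0) (T : Finset (M →ₐ[ℚ] ℂ)) (m N : ℕ) (hm : m ≤ N) :
    ‖∑ τ ∈ T, uu α τ ^ m‖ ^ 2 ≤ 2 * ‖∑ τ ∈ T, refl (τ (α ^ m))‖ ^ 2 +
      4 * T.card * N * ∑ τ ∈ T, |Real.log ‖τ α‖| := by
  set a := ∑ τ ∈ T, uu α τ ^ m
  set b := ∑ τ ∈ T, refl (τ (α ^ m))
  set A := ∑ τ ∈ T, |Real.log ‖τ α‖| with hA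
  have hA0 : 0 ≤ A := Finset.sum_nonneg fun _ _ => abs_nonneg _
  have h1 : ‖a - b‖ ≤ ∑ τ ∈ T, min 2 (m * |Real.log ‖τ α‖|) := by
    have : a - b = ∑ τ ∈ T, (uu α τ ^ m - refl (τ (α ^ m))) := by
      rw [Finset.sum_sub_distrib]
    rw [this]
    exact (norm_sum_le _ _).trans (Finset.sum_le_sum fun τ _ => term_le h0 τ m)
  have h2 : ‖a - b‖ ≤ 2 * T.card := by
    refine h1.trans ((Finset.sum_le_sum fun τ _ => min_le_left _ _).trans (le_of_eq ?_))
    rw [Finset.sum_const, nsmul_eq_mul, mul_comm]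
  have h3 : ‖a - b‖ ≤ N * A := by
    refine h1.trans ((Finset.sum_le_sum fun τ _ => min_le_right _ _).trans ?_)
    rw [← Finset.mul_sum]
    exact mul_le_mul_of_nonneg_right (by exact_mod_cast hm) hA0
  have h4 : ‖a - b‖ ^ 2 ≤ 2 * T.card * (N * A) := by
    rw [sq]
    exact mul_le_mul h2 h3 (norm_nonneg _) (by positivity)
  have h5 : ‖a‖ ≤ ‖b‖ + ‖a - b‖ := by
    have := norm_add_le b (a - b)
    rwa [add_sub_cancel] at this
  have h6 : ‖a‖ ^ 2 ≤ (‖b‖ + ‖a - b‖) ^ 2 := pow_le_pow_left₀ (norm_nonneg _) h5 2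
  nlinarith [sq_nonneg (‖b‖ - ‖a - b‖)]

/-- POW -/
theorem pow : S_POWX := by
  intro hCARD hCLS k M _ _ _ _ _ α F hα h0 hF0 hF hsmall
  classical
  obtain ⟨hc, hs⟩ := hCARD k M
  have hcardk : Fintype.card (k →ₐ[ℚ] ℂ) = finrank ℚ k := AlgHom.card ℚ k ℂ
  have hn : (finrank ℚ k : ℝ) * finrank k M = finrank ℚ M := by
    exact_mod_cast Module.finrank_mul_finrank ℚ k M
  have hκ : (0:ℝ) < finrank ℚ k := by exact_mod_cast (finrank_pos : 0 < finrank ℚ k)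
  have hD : (0:ℝ) < finrank k M := by
    have h1 : (0:ℝ) < finrank ℚ M := by exact_mod_cast (finrank_pos : 0 < finrank ℚ M)
    rw [← hn] at h1
    exact pos_of_mul_pos_right h1 hκ.le
  set κ : ℝ := (finrank ℚ k : ℝ) with hκdef
  set D : ℝ := (finrank k M : ℝ) with hDdef
  set s : ℝ := (F.support.card : ℝ) with hsdef
  set N : ℝ := (F.natDegree : ℝ) with hNdef
  have hN0 : 0 ≤ N := Nat.cast_nonneg _
  have hs1 : 1 ≤ s := by
    rw [hsdef]
    exact_mod_cast Finset.card_pos.mpr (Polynomial.support_nonempty.mpr hF0)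
  have hlam := lam_nonneg α
  -- the sums of the absolute logarithms
  set A : (k →ₐ[ℚ] ℂ) → ℝ := fun σ => ∑ τ ∈ cl (M := M) σ, |Real.log ‖τ α‖| with hA
  have hA1 : ∑ σ, A σ ≤ 2 * lam α := by
    rw [hA]
    simp only
    rw [hs fun τ => |Real.log ‖τ α‖|]
    exact sum_abs_log_le hα h0
  have hA0 : ∀ σ, 0 ≤ A σ := fun σ => Finset.sum_nonneg fun _ _ => abs_nonneg _
  -- the Gram matrices
  set S : (k →ₐ[ℚ] ℂ) → ℕ → ℕ → ℂ := fun σ j l =>
    ∑ τ ∈ cl (M := M) σ, uu α τ ^ j * starRingEnd ℂ (uu α τ ^ l) with hS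
  set H : (k →ₐ[ℚ] ℂ) → ℝ := fun σ => Real.sqrt (∑ j ∈ F.support, ∑ l ∈ F.support,
    if j = l then 0 else ‖S σ j l‖ ^ 2) with hH
  have hcls : ∀ σ : k →ₐ[ℚ] ℂ, D ≤ H σ + 2 * s * N * A σ := by
    intro σ
    have hinj : Function.Injective (σ : k →+* ℂ) := (σ : k →+* ℂ).injective
    have h1 := hCLS (M →ₐ[ℚ] ℂ) (cl (M := M) σ) (fun τ => τ α) (F.map (σ : k →+* ℂ))
      ((Polynomial.map_ne_zero_iff hinj).mpr hF0) (by
        intro τ hτ
        refine ⟨(map_ne_zero τ).mpr h0, ?_⟩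
        have h2 : ∀ x : k, τ (algebraMap k M x) = σ x := by
          unfold cl at hτ
          simpa using hτ
        have h3 : (σ : k →+* ℂ) = (τ : M →+* ℂ).comp (algebraMap k M) := by
          ext x
          exact (h2 x).symm
        have h4 : eval₂ (algebraMap k M) α F = 0 := hF
        have h5 := Polynomial.hom_eval₂ F (algebraMap k M) (τ : M →+* ℂ) α
        rw [h4, map_zero] at h5
        rw [h3, Polynomial.eval_map]
        exact h5.symm)
    rw [Polynomial.support_map_of_injective _ hinj, Polynomial.natDegree_map_eq_of_injective hinj,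
      hc σ] at h1
    exact h1
  have hsum : κ * D ≤ (∑ σ, H σ) + 4 * s * N * lam α := by
    have h1 := Finset.sum_le_sum fun (σ : k →ₐ[ℚ] ℂ) (_ : σ ∈ Finset.univ) => hcls σ
    rw [Finset.sum_const, Finset.card_univ, hcardk, nsmul_eq_mul, Finset.sum_add_distrib,
      ← Finset.mul_sum] at h1
    have h2 : 2 * s * N * ∑ σ, A σ ≤ 2 * s * N * (2 * lam α) :=
      mul_le_mul_of_nonneg_left hA1 (by positivity)
    linarith
  have hsm : 4 * s * N * lam α ≤ κ * D / 64 := by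
    rw [hn]
    have h1 : s * (N * lam α) ≤ s ^ 2 * (N * lam α) := by
      apply mul_le_mul_of_nonneg_right _ (by positivity)
      nlinarith
    linarith
  have hH1 : 63 / 64 * (κ * D) ≤ ∑ σ, H σ := by linarith
  have hH2 : (∑ σ, H σ) ^ 2 ≤ κ * ∑ σ, H σ ^ 2 := by
    have h1 := sq_sum_le_card_mul_sum_sq (s := (Finset.univ : Finset (k →ₐ[ℚ] ℂ))) (f := H)
    rwa [Finset.card_univ, hcardk] at h1
  have hH3 : (63 / 64) ^ 2 * (κ * D ^ 2) ≤ ∑ σ, H σ ^ 2 := by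
    have h1 : (63 / 64 * (κ * D)) ^ 2 ≤ κ * ∑ σ, H σ ^ 2 :=
      (pow_le_pow_left₀ (by positivity) hH1 2).trans hH2
    have h2 : κ * ((63 / 64) ^ 2 * (κ * D ^ 2)) ≤ κ * ∑ σ, H σ ^ 2 := by
      calc κ * ((63 / 64) ^ 2 * (κ * D ^ 2)) = (63 / 64 * (κ * D)) ^ 2 := by ring
        _ ≤ _ := h1
    exact le_of_mul_le_mul_left h2 hκ
  have hH4 : ∀ σ, H σ ^ 2 = ∑ x ∈ F.support ×ˢ F.support,
      if x.1 = x.2 then 0 else ‖S σ x.1 x.2‖ ^ 2 := by
    intro σ
    rw [hH]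
    simp only
    rw [Real.sq_sqrt, Finset.sum_product]
    refine Finset.sum_nonneg fun j _ => Finset.sum_nonneg fun l _ => ?_
    split_ifs
    · exact le_rfl
    · positivity
  -- pigeonhole
  have hpig : ∃ x ∈ F.support ×ˢ F.support, (63 / 64) ^ 2 * (κ * D ^ 2) / s ^ 2 ≤
      ∑ σ, if x.1 = x.2 then 0 else ‖S σ x.1 x.2‖ ^ 2 := by
    apply Finset.exists_le_of_sum_le
    · obtain ⟨i, hi⟩ := Polynomial.support_nonempty.mpr hF0
      exact ⟨(i, i), Finset.mem_product.mpr ⟨hi, hi⟩⟩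
    · rw [Finset.sum_comm, ← Finset.sum_congr rfl fun σ _ => hH4 σ, Finset.sum_const,
        Finset.card_product, nsmul_eq_mul]
      refine le_trans (le_of_eq ?_) hH3
      push_cast
      rw [← hsdef]
      field_simp
  obtain ⟨⟨j, l⟩, hjl, hx⟩ := hpig
  rw [Finset.mem_product] at hjl
  simp only at hjl hx
  have hpos : 0 < (63 / 64) ^ 2 * (κ * D ^ 2) / s ^ 2 := by positivity
  have hne : j ≠ l := by
    intro h
    simp only [h, if_true, Finset.sum_const_zero] at hx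
    linarith
  simp only [if_neg hne] at hx
  -- the power
  have hex : ∃ m : ℕ, 1 ≤ m ∧ m ≤ F.natDegree ∧ ∀ σ, ‖S σ j l‖ = ‖∑ τ ∈ cl (M := M) σ, uu α τ ^ m‖ := by
    rcases lt_or_gt_of_ne hne with h | h
    · refine ⟨l - j, by omega, (Nat.sub_le _ _).trans (Polynomial.le_natDegree_of_mem_supp l hjl.2), ?_⟩
      intro σ
      have e : S σ j l = starRingEnd ℂ (∑ τ ∈ cl (M := M) σ, uu α τ ^ (l - j)) := by
        rw [hS, map_sum]
        refine Finset.sum_congr rfl fun τ _ => ?_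
        rw [← uu_mul h0 τ h.le, map_mul, Complex.conj_conj, mul_comm]
      rw [e, RCLike.norm_conj]
    · refine ⟨j - l, by omega, (Nat.sub_le _ _).trans (Polynomial.le_natDegree_of_mem_supp j hjl.1), ?_⟩
      intro σ
      rw [hS]
      simp only
      rw [Finset.sum_congr rfl fun τ _ => uu_mul h0 τ h.le]
  obtain ⟨m, hm1, hm2, hm3⟩ := hex
  refine ⟨m, hm1, hm2, ?_⟩
  set B := ∑ σ : k →ₐ[ℚ] ℂ, ‖∑ τ ∈ cl (M := M) σ, refl (τ (α ^ m))‖ ^ 2 with hB
  have hfin : (63 / 64) ^ 2 * (κ * D ^ 2) / s ^ 2 ≤ 2 * B + 8 * D * N * lam α := by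
    refine hx.trans ?_
    have h1 : ∀ σ : k →ₐ[ℚ] ℂ, ‖S σ j l‖ ^ 2 ≤
        2 * ‖∑ τ ∈ cl (M := M) σ, refl (τ (α ^ m))‖ ^ 2 + 4 * D * N * A σ := by
      intro σ
      rw [hm3 σ]
      have := class_le h0 (cl (M := M) σ) m F.natDegree hm2
      rwa [hc σ] at this
    refine (Finset.sum_le_sum fun σ _ => h1 σ).trans ?_
    rw [Finset.sum_add_distrib, ← Finset.mul_sum, ← Finset.mul_sum, ← hB]
    have h2 : 4 * D * N * ∑ σ, A σ ≤ 4 * D * N * (2 * lam α) :=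
      mul_le_mul_of_nonneg_left hA1 (by positivity)
    linarith
  have hsm2 : 8 * D * N * lam α ≤ κ * D ^ 2 / (32 * s ^ 2) := by
    rw [le_div_iff₀ (by positivity)]
    rw [← hn] at hsmall
    have := mul_le_mul_of_nonneg_left hsmall hD.le
    nlinarith
  have e1 : (63 / 64) ^ 2 * (κ * D ^ 2) / s ^ 2 = (63 / 64) ^ 2 * (κ * D ^ 2 / s ^ 2) := by ring
  have e2 : κ * D ^ 2 / (32 * s ^ 2) = (κ * D ^ 2 / s ^ 2) / 32 := by
    field_simp
  have e3 : κ * D ^ 2 / (4 * s ^ 2) = (κ * D ^ 2 / s ^ 2) / 4 := by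
    field_simp
  have hq : 0 < κ * D ^ 2 / s ^ 2 := by positivity
  rw [e3]
  rw [e1] at hfin
  rw [e2] at hsm2
  linarith

end Pool.Agent.P8H41.SP
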